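import Pool.Agent.Helper8_BRW.Stmts

/-!
# Squad BRW, module PROC: the law of one tree
-/

set_option autoImplicit false

open MeasureTheory Set Filter ProbabilityTheory

namespace BRW.H75

lemma birth_nonneg (ξ : ℤ → ℝ) (hξ : ∀ x, 0 < ξ x) (z : ℤ) (ω : List Bool → ℝ × ℝ)
    (h : ∀ l, 0 ≤ (ω l).1) (l : List Bool) : 0 ≤ (node ξ (z, 0, true) ω l).2.1 := by
  induction l with
  | nil => simp [node]
  | cons c l ih =>
    have h1 : 0 ≤ (ω l).1 / (1 + ξ (node ξ (z, 0, true) ω l).1) :=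
      div_nonneg (h l) (by have := hξ (node ξ (z, 0, true) ω l).1; linarith)
    simp only [node, child]
    split_ifs
    · exact add_nonneg ih h1
    · exact add_nonneg ih h1
    · exact add_nonneg ih h1

/-- integrals with respect to the exponential law -/
lemma lint_exp (H : ℝ → ENNReal) (hH : Measurable H) :
    ∫⁻ e, H e ∂(expMeasure 1) = ∫⁻ e in Ici 0, ENNReal.ofReal (Real.exp (-e)) * H e := by
  have h1 : expMeasure 1 = volume.withDensity (fun x => exponentialPDF 1 x) := rfl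
  have hm : Measurable (fun x => exponentialPDF 1 x) := by
    unfold exponentialPDF
    exact (measurable_exponentialPDFReal 1).ennreal_ofReal
  rw [h1, lintegral_withDensity_eq_lintegral_mul _ hm hH]
  rw [← lintegral_indicator measurableSet_Ici]
  apply lintegral_congr
  intro e
  simp only [Pi.mul_apply, exponentialPDF_eq, Set.indicator, mem_Ici]
  split_ifs with h
  · simp
  · simp

lemma exp_neg_null : expMeasure 1 (Iio (0 : ℝ)) = 0 := by
  have h := lint_exp (Set.indicator (Iio (0 : ℝ)) 1) (measurable_one.indicator measurableSet_Iio)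
  rw [lintegral_indicator_one measurableSet_Iio] at h
  rw [h]
  rw [setLIntegral_congr_fun (g := fun _ => (0 : ENNReal)) measurableSet_Ici]
  · simp
  · intro e he
    have h0 : (0 : ℝ) ≤ e := he
    have : e ∉ Iio (0 : ℝ) := by simpa using h0
    simp [Set.indicator, this]

lemma mark_neg_null : markLaw {m : ℝ × ℝ | m.1 < 0} = 0 := by
  have : {m : ℝ × ℝ | m.1 < 0} = Iio (0 : ℝ) ×ˢ univ := by ext m; simp
  have h1 : IsProbabilityMeasure (expMeasure 1) := isProbabilityMeasure_expMeasure one_pos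
  rw [this, markLaw, Measure.prod_prod, exp_neg_null, zero_mul]

lemma ae_marks : ∀ᵐ ω ∂treeLaw, ∀ l, 0 ≤ (ω l).1 := by
  rw [ae_all_iff]
  intro l
  have hmp : MeasurePreserving (Function.eval l) treeLaw markLaw :=
    measurePreserving_eval_infinitePi (fun _ : List Bool => markLaw) l
  have h0 : ∀ᵐ m ∂markLaw, 0 ≤ m.1 := by
    rw [ae_iff]
    simpa [not_le] using mark_neg_null
  exact hmp.quasiMeasurePreserving.ae h0

lemma ev_neg (ξ : ℤ → ℝ) (hξ : ∀ x, 0 < ξ x) (y : ℤ) (n : ℕ) (t : ℝ) (ht : t < 0) (z : ℤ) :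
    treeLaw {ω | Ev ξ y n t z ω} = 0 := by
  refine measure_mono_null ?_ (ae_iff.1 ae_marks)
  rintro ω ⟨l, -, ⟨-, h2, -⟩, -⟩ hall
  have := birth_nonneg ξ hξ z ω hall l
  linarith

lemma lint_step (x1 x2 : ℝ) (h1 : 0 ≤ x1) (h2 : x1 ≤ x2) (h3 : x2 ≤ 1) (A B C : ENNReal) :
    ∫⁻ r in Icc (0 : ℝ) 1, (if r < x1 then A else if r < x2 then B else C) =
      A * ENNReal.ofReal x1 + B * ENNReal.ofReal (x2 - x1) + C * ENNReal.ofReal (1 - x2) := by
  have e1 : Icc (0 : ℝ) 1 = (Ico 0 x1 ∪ Ico x1 x2) ∪ Icc x2 1 := by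
    ext r
    simp only [mem_Icc, mem_union, mem_Ico]
    constructor
    · rintro ⟨a, b⟩
      by_cases c : r < x1
      · exact Or.inl (Or.inl ⟨a, c⟩)
      · by_cases d : r < x2
        · exact Or.inl (Or.inr ⟨not_lt.1 c, d⟩)
        · exact Or.inr ⟨not_lt.1 d, b⟩
    · rintro ((⟨a, b⟩ | ⟨a, b⟩) | ⟨a, b⟩)
      · constructor <;> linarith
      · constructor <;> linarith
      · constructor <;> linarith
  rw [e1, lintegral_union measurableSet_Icc, lintegral_union measurableSet_Ico]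
  · congr 1
    · congr 1
      · rw [setLIntegral_congr_fun (g := fun _ => A) measurableSet_Ico, setLIntegral_const,
          Real.volume_Ico, sub_zero]
        intro r hr
        simp [hr.2]
      · rw [setLIntegral_congr_fun (g := fun _ => B) measurableSet_Ico, setLIntegral_const,
          Real.volume_Ico]
        intro r hr
        simp [hr.2, not_lt.2 hr.1]
    · rw [setLIntegral_congr_fun (g := fun _ => C) measurableSet_Icc, setLIntegral_const,
          Real.volume_Icc]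
      intro r hr
      have : ¬ r < x1 := not_lt.2 (h2.trans hr.1)
      simp [this, not_lt.2 hr.1]
  · rw [Set.disjoint_left]
    rintro r ⟨_, a⟩ ⟨b, _⟩
    linarith
  · rw [Set.disjoint_left]
    rintro r (⟨_, a⟩ | ⟨_, a⟩) ⟨b, _⟩
    · linarith
    · linarith

lemma meas_slice (hpm : PMStmt) (ξ : ℤ → ℝ) (y : ℤ) (n : ℕ) (t : ℝ) (z : ℤ) :
    MeasurableSet {ω : List Bool → ℝ × ℝ | Ev ξ y n t z ω} := by
  have h : Measurable (fun ω : List Bool → ℝ × ℝ => (t, ω)) := by fun_prop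
  exact (hpm ξ y n z).preimage h

/-- the probability of the event, as a real number -/
noncomputable def pr (ξ : ℤ → ℝ) (y : ℤ) (n : ℕ) (z : ℤ) (t : ℝ) : ℝ :=
  (treeLaw {ω | Ev ξ y n t z ω}).toReal

lemma pr_meas (hpm : PMStmt) (ξ : ℤ → ℝ) (y : ℤ) (n : ℕ) (z : ℤ) :
    Measurable (pr ξ y n z) := by
  have h : Measurable (fun t : ℝ => treeLaw (Prod.mk t ⁻¹'
      {q : ℝ × (List Bool → ℝ × ℝ) | Ev ξ y n q.1 z q.2})) :=
    measurable_measure_prodMk_left (hpm ξ y n z)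
  exact h.ennreal_toReal

lemma pr_nonneg (ξ : ℤ → ℝ) (y : ℤ) (n : ℕ) (z : ℤ) (t : ℝ) : 0 ≤ pr ξ y n z t :=
  ENNReal.toReal_nonneg

lemma pr_le_one (ξ : ℤ → ℝ) (y : ℤ) (n : ℕ) (z : ℤ) (t : ℝ) : pr ξ y n z t ≤ 1 := by
  have := prob_le_one (μ := treeLaw) (s := {ω | Ev ξ y n t z ω})
  exact ENNReal.toReal_mono ENNReal.one_ne_top this

lemma law_eq (ξ : ℤ → ℝ) (y : ℤ) (n : ℕ) (z : ℤ) (t : ℝ) :
    treeLaw {ω | Ev ξ y n t z ω} = ENNReal.ofReal (pr ξ y n z t) :=
  (ENNReal.ofReal_toReal (measure_ne_top _ _)).symm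

/-- the event in terms of the mark of the root and the two subtrees -/
def SS (ξ : ℤ → ℝ) (y : ℤ) (n : ℕ) (t : ℝ) (z : ℤ) :
    Set ((ℝ × ℝ) × ((List Bool → ℝ × ℝ) × (List Bool → ℝ × ℝ))) :=
  {q | (0 ≤ t ∧ t < q.1.1 / (1 + ξ z) ∧ y ≤ z) ∨
    (q.1.2 * (1 + ξ z) < ξ z ∧
      (Ev ξ y n (t - q.1.1 / (1 + ξ z)) z q.2.1 ∨
        Ev ξ y n (t - q.1.1 / (1 + ξ z)) z q.2.2)) ∨
    (ξ z ≤ q.1.2 * (1 + ξ z) ∧ q.1.2 * (1 + ξ z) < ξ z + 1 / 2 ∧
      Ev ξ y n (t - q.1.1 / (1 + ξ z)) (z + 1) q.2.1) ∨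
    (ξ z + 1 / 2 ≤ q.1.2 * (1 + ξ z) ∧
      Ev ξ y n (t - q.1.1 / (1 + ξ z)) (z - 1) q.2.1)}

lemma SS_meas (hpm : PMStmt) (ξ : ℤ → ℝ) (y : ℤ) (n : ℕ) (t : ℝ) (z : ℤ) :
    MeasurableSet (SS ξ y n t z) := by
  have f1 : Measurable (fun q : (ℝ × ℝ) × ((List Bool → ℝ × ℝ) × (List Bool → ℝ × ℝ)) =>
      q.1.1 / (1 + ξ z)) := by fun_prop
  have f2 : Measurable (fun q : (ℝ × ℝ) × ((List Bool → ℝ × ℝ) × (List Bool → ℝ × ℝ)) =>
      q.1.2 * (1 + ξ z)) := by fun_prop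
  have g1 : Measurable (fun q : (ℝ × ℝ) × ((List Bool → ℝ × ℝ) × (List Bool → ℝ × ℝ)) =>
      (t - q.1.1 / (1 + ξ z), q.2.1)) := by fun_prop
  have g2 : Measurable (fun q : (ℝ × ℝ) × ((List Bool → ℝ × ℝ) × (List Bool → ℝ × ℝ)) =>
      (t - q.1.1 / (1 + ξ z), q.2.2)) := by fun_prop
  have a1 := fun z' => (hpm ξ y n z').preimage g1
  have a2 := fun z' => (hpm ξ y n z').preimage g2
  have b1 : MeasurableSet {q : (ℝ × ℝ) × ((List Bool → ℝ × ℝ) × (List Bool → ℝ × ℝ)) |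
      0 ≤ t ∧ t < q.1.1 / (1 + ξ z) ∧ y ≤ z} :=
    (MeasurableSet.const _).inter ((measurableSet_lt measurable_const f1).inter
      (MeasurableSet.const _))
  have b2 : MeasurableSet {q : (ℝ × ℝ) × ((List Bool → ℝ × ℝ) × (List Bool → ℝ × ℝ)) |
      q.1.2 * (1 + ξ z) < ξ z} := measurableSet_lt f2 measurable_const
  have b3 : MeasurableSet {q : (ℝ × ℝ) × ((List Bool → ℝ × ℝ) × (List Bool → ℝ × ℝ)) |
      ξ z ≤ q.1.2 * (1 + ξ z)} := measurableSet_le measurable_const f2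
  have b4 : MeasurableSet {q : (ℝ × ℝ) × ((List Bool → ℝ × ℝ) × (List Bool → ℝ × ℝ)) |
      q.1.2 * (1 + ξ z) < ξ z + 1 / 2} := measurableSet_lt f2 measurable_const
  have b5 : MeasurableSet {q : (ℝ × ℝ) × ((List Bool → ℝ × ℝ) × (List Bool → ℝ × ℝ)) |
      ξ z + 1 / 2 ≤ q.1.2 * (1 + ξ z)} := measurableSet_le measurable_const f2
  exact b1.union ((b2.inter ((a1 z).union (a2 z))).union
    ((b3.inter (b4.inter (a1 (z + 1)))).union (b5.inter (a1 (z - 1)))))

lemma union_prob (E : Set (List Bool → ℝ × ℝ)) (hE : MeasurableSet E) (p : ℝ) (h0 : 0 ≤ p)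
    (h1 : p ≤ 1) (hp : treeLaw E = ENNReal.ofReal p) :
    (treeLaw.prod treeLaw) {q | q.1 ∈ E ∨ q.2 ∈ E} = ENNReal.ofReal (1 - (1 - p) ^ 2) := by
  have e : {q : (List Bool → ℝ × ℝ) × (List Bool → ℝ × ℝ) | q.1 ∈ E ∨ q.2 ∈ E} =
      (Eᶜ ×ˢ Eᶜ)ᶜ := by
    ext q
    simp only [mem_ofPred_eq, mem_compl_iff, mem_prod]
    tauto
  rw [e, prob_compl_eq_one_sub (hE.compl.prod hE.compl), Measure.prod_prod,
    prob_compl_eq_one_sub hE, hp, ← ENNReal.ofReal_one, ← ENNReal.ofReal_sub _ h0,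
    ← ENNReal.ofReal_mul (by linarith), ← ENNReal.ofReal_sub _ (by nlinarith)]
  congr 1
  ring

lemma sect1 (ξ : ℤ → ℝ) (hξ : ∀ x, 0 < ξ x) (y : ℤ) (n : ℕ) (t : ℝ) (z : ℤ) (ht : 0 ≤ t)
    (e r : ℝ) (h : t < e / (1 + ξ z)) :
    (treeLaw.prod treeLaw) (Prod.mk (e, r) ⁻¹' SS ξ y n t z) = ENNReal.ofReal (ind y z) := by
  by_cases hy : y ≤ z
  · have e1 : (Prod.mk (e, r) ⁻¹' SS ξ y n t z) = univ := by
      apply eq_univ_of_forall
      intro q
      exact Or.inl ⟨ht, h, hy⟩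
    rw [e1, measure_univ]
    simp [ind, hy]
  · have hneg : t - e / (1 + ξ z) < 0 := by linarith
    have hs := fun z' => ev_neg ξ hξ y n _ hneg z'
    have e0 : ind y z = 0 := by simp [ind, hy]
    rw [e0, ENNReal.ofReal_zero]
    have h1 : ∀ z', (treeLaw.prod treeLaw)
        ({ω | Ev ξ y n (t - e / (1 + ξ z)) z' ω} ×ˢ univ) = 0 := by
      intro z'
      rw [Measure.prod_prod, hs z', zero_mul]
    have h2 : ∀ z', (treeLaw.prod treeLaw)
        (univ ×ˢ {ω | Ev ξ y n (t - e / (1 + ξ z)) z' ω}) = 0 := by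
      intro z'
      rw [Measure.prod_prod, hs z', mul_zero]
    refine measure_mono_null ?_ (measure_union_null (measure_union_null (h1 z) (h2 z))
      (measure_union_null (h1 (z + 1)) (h1 (z - 1))))
    rintro q (⟨_, _, hq⟩ | ⟨_, (hq | hq)⟩ | ⟨_, _, hq⟩ | ⟨_, hq⟩)
    · exact absurd hq hy
    · exact Or.inl (Or.inl ⟨hq, mem_univ _⟩)
    · exact Or.inl (Or.inr ⟨mem_univ _, hq⟩)
    · exact Or.inr (Or.inl ⟨hq, mem_univ _⟩)
    · exact Or.inr (Or.inr ⟨hq, mem_univ _⟩)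

lemma fst_prob (E : Set (List Bool → ℝ × ℝ)) :
    (treeLaw.prod treeLaw) {q | q.1 ∈ E} = treeLaw E := by
  have e : {q : (List Bool → ℝ × ℝ) × (List Bool → ℝ × ℝ) | q.1 ∈ E} = E ×ˢ univ := by
    ext q; simp
  rw [e, Measure.prod_prod, measure_univ, mul_one]

lemma sect2 (hpm : PMStmt) (ξ : ℤ → ℝ) (hξ : ∀ x, 0 < ξ x) (y : ℤ) (n : ℕ) (t : ℝ) (z : ℤ)
    (e r : ℝ) (h : e / (1 + ξ z) ≤ t) :
    (treeLaw.prod treeLaw) (Prod.mk (e, r) ⁻¹' SS ξ y n t z) =
      if r < ξ z / (1 + ξ z) then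
        ENNReal.ofReal (1 - (1 - pr ξ y n z (t - e / (1 + ξ z))) ^ 2)
      else if r < (ξ z + 1 / 2) / (1 + ξ z) then
        ENNReal.ofReal (pr ξ y n (z + 1) (t - e / (1 + ξ z)))
      else ENNReal.ofReal (pr ξ y n (z - 1) (t - e / (1 + ξ z))) := by
  have hc : 0 < 1 + ξ z := by have := hξ z; linarith
  have k1 : r < ξ z / (1 + ξ z) ↔ r * (1 + ξ z) < ξ z := lt_div_iff₀ hc
  have k2 : r < (ξ z + 1 / 2) / (1 + ξ z) ↔ r * (1 + ξ z) < ξ z + 1 / 2 := lt_div_iff₀ hc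
  have hn : ¬ t < e / (1 + ξ z) := not_lt.2 h
  simp only [k1, k2]
  set s := t - e / (1 + ξ z) with hs
  split_ifs with c1 c2
  · have e1 : (Prod.mk (e, r) ⁻¹' SS ξ y n t z) =
        {q | q.1 ∈ {ω | Ev ξ y n s z ω} ∨ q.2 ∈ {ω | Ev ξ y n s z ω}} := by
      ext q
      constructor
      · rintro (⟨_, hq, _⟩ | ⟨_, hq⟩ | ⟨hq, _⟩ | ⟨hq, _⟩)
        · exact absurd hq hn
        · exact hq
        · exact absurd c1 (not_lt.2 hq)
        · exfalso
          have hq' : ξ z + 1 / 2 ≤ r * (1 + ξ z) := hq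
          linarith
      · intro hq
        exact Or.inr (Or.inl ⟨c1, hq⟩)
    rw [e1]
    exact union_prob _ (meas_slice hpm ξ y n s z) _ (pr_nonneg ..) (pr_le_one ..) (law_eq ..)
  · have e1 : (Prod.mk (e, r) ⁻¹' SS ξ y n t z) = {q | q.1 ∈ {ω | Ev ξ y n s (z + 1) ω}} := by
      ext q
      constructor
      · rintro (⟨_, hq, _⟩ | ⟨hq, _⟩ | ⟨_, _, hq⟩ | ⟨hq, _⟩)
        · exact absurd hq hn
        · exact absurd hq c1
        · exact hq
        · exact absurd c2 (not_lt.2 hq)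
      · intro hq
        exact Or.inr (Or.inr (Or.inl ⟨not_lt.1 c1, c2, hq⟩))
    rw [e1, fst_prob]
    exact law_eq ..
  · have e1 : (Prod.mk (e, r) ⁻¹' SS ξ y n t z) = {q | q.1 ∈ {ω | Ev ξ y n s (z - 1) ω}} := by
      ext q
      constructor
      · rintro (⟨_, hq, _⟩ | ⟨hq, _⟩ | ⟨_, hq, _⟩ | ⟨_, hq⟩)
        · exact absurd hq hn
        · exact absurd hq c1
        · exact absurd hq c2
        · exact hq
      · intro hq
        exact Or.inr (Or.inr (Or.inr ⟨not_lt.1 c2, hq⟩))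
    rw [e1, fst_prob]
    exact law_eq ..

/-- the conditional probability given the life time -/
noncomputable def GG (ξ : ℤ → ℝ) (y : ℤ) (n : ℕ) (z : ℤ) (s : ℝ) : ℝ :=
  (1 - (1 - pr ξ y n z s) ^ 2) * (ξ z / (1 + ξ z)) +
    pr ξ y n (z + 1) s * ((1 / 2) / (1 + ξ z)) + pr ξ y n (z - 1) s * ((1 / 2) / (1 + ξ z))

lemma inner (hpm : PMStmt) (ξ : ℤ → ℝ) (hξ : ∀ x, 0 < ξ x) (y : ℤ) (n : ℕ) (t : ℝ) (z : ℤ)
    (ht : 0 ≤ t) (e : ℝ) :
    ∫⁻ r in Icc (0 : ℝ) 1, (treeLaw.prod treeLaw) (Prod.mk (e, r) ⁻¹' SS ξ y n t z) =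
      ENNReal.ofReal (if t < e / (1 + ξ z) then ind y z else GG ξ y n z (t - e / (1 + ξ z))) := by
  have hc : 0 < 1 + ξ z := by have := hξ z; linarith
  split_ifs with h
  · simp only [sect1 ξ hξ y n t z ht e _ h]
    rw [setLIntegral_const, Real.volume_Icc]
    simp
  · simp only [sect2 hpm ξ hξ y n t z e _ (not_lt.1 h)]
    set p := pr ξ y n z (t - e / (1 + ξ z)) with hp
    have p0 : 0 ≤ p := pr_nonneg ..
    have p1 : p ≤ 1 := pr_le_one ..
    have q0 := pr_nonneg ξ y n (z + 1) (t - e / (1 + ξ z))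
    have r0 := pr_nonneg ξ y n (z - 1) (t - e / (1 + ξ z))
    have u0 : 0 ≤ ξ z / (1 + ξ z) := div_nonneg (hξ z).le hc.le
    have u1 : 0 ≤ (1 / 2) / (1 + ξ z) := by positivity
    rw [lint_step _ _ u0 (by gcongr; linarith) (by rw [div_le_one hc]; linarith)]
    have w1 : (ξ z + 1 / 2) / (1 + ξ z) - ξ z / (1 + ξ z) = (1 / 2) / (1 + ξ z) := by
      field_simp; ring
    have w2 : 1 - (ξ z + 1 / 2) / (1 + ξ z) = (1 / 2) / (1 + ξ z) := by
      field_simp; ring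
    have v0 : 0 ≤ 1 - (1 - p) ^ 2 := by nlinarith
    rw [w1, w2, ← ENNReal.ofReal_mul v0, ← ENNReal.ofReal_mul q0, ← ENNReal.ofReal_mul r0,
      ← ENNReal.ofReal_add (by positivity) (by positivity),
      ← ENNReal.ofReal_add (by positivity) (by positivity)]
    rfl

lemma GG_meas (hpm : PMStmt) (ξ : ℤ → ℝ) (y : ℤ) (n : ℕ) (z : ℤ) :
    Measurable (GG ξ y n z) := by
  unfold GG
  exact (((measurable_const.sub ((measurable_const.sub (pr_meas hpm ξ y n z)).pow_const 2)).mul_const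
    _).add ((pr_meas hpm ξ y n (z + 1)).mul_const _)).add
    ((pr_meas hpm ξ y n (z - 1)).mul_const _)

lemma GG_nonneg (ξ : ℤ → ℝ) (hξ : ∀ x, 0 < ξ x) (y : ℤ) (n : ℕ) (z : ℤ) (s : ℝ) :
    0 ≤ GG ξ y n z s := by
  have hc : 0 < 1 + ξ z := by have := hξ z; linarith
  have p0 := pr_nonneg ξ y n z s
  have p1 := pr_le_one ξ y n z s
  have q0 := pr_nonneg ξ y n (z + 1) s
  have r0 := pr_nonneg ξ y n (z - 1) s
  have u0 : 0 ≤ ξ z / (1 + ξ z) := div_nonneg (hξ z).le hc.le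
  have u1 : 0 ≤ (1 / 2) / (1 + ξ z) := by positivity
  have v0 : 0 ≤ 1 - (1 - pr ξ y n z s) ^ 2 := by nlinarith
  unfold GG
  positivity

lemma GG_le (ξ : ℤ → ℝ) (hξ : ∀ x, 0 < ξ x) (y : ℤ) (n : ℕ) (z : ℤ) (s : ℝ) :
    GG ξ y n z s ≤ 1 := by
  have hc : 0 < 1 + ξ z := by have := hξ z; linarith
  have p0 := pr_nonneg ξ y n z s
  have p1 := pr_le_one ξ y n z s
  have q1 := pr_le_one ξ y n (z + 1) s
  have r1 := pr_le_one ξ y n (z - 1) s
  have u0 : 0 ≤ ξ z / (1 + ξ z) := div_nonneg (hξ z).le hc.le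
  have u1 : 0 ≤ (1 / 2) / (1 + ξ z) := by positivity
  have v0 : 1 - (1 - pr ξ y n z s) ^ 2 ≤ 1 := by nlinarith
  have w : ξ z / (1 + ξ z) + (1 / 2) / (1 + ξ z) + (1 / 2) / (1 + ξ z) = 1 := by
    field_simp; ring
  unfold GG
  nlinarith [mul_le_mul_of_nonneg_right v0 u0, mul_le_mul_of_nonneg_right q1 u1,
    mul_le_mul_of_nonneg_right r1 u1]

lemma cg_eq (ξ : ℤ → ℝ) (hξ : ∀ x, 0 < ξ x) (y : ℤ) (n : ℕ) (z : ℤ) (s : ℝ) :
    (1 + ξ z) * GG ξ y n z s = (pr ξ y n (z + 1) s + pr ξ y n (z - 1) s) / 2 +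
      ξ z * (2 * pr ξ y n z s - pr ξ y n z s ^ 2) := by
  have hc : 1 + ξ z ≠ 0 := by have := hξ z; linarith
  unfold GG
  field_simp
  ring

lemma partA (T : ℝ) (g : ℝ) :
    ∫⁻ e in Ioi T, ENNReal.ofReal (Real.exp (-e)) * ENNReal.ofReal g =
      ENNReal.ofReal (Real.exp (-T)) * ENNReal.ofReal g := by
  rw [lintegral_mul_const _ (by fun_prop)]
  congr 1
  rw [← ofReal_integral_eq_lintegral_ofReal (integrableOn_exp_neg_Ioi T)
    (Eventually.of_forall fun x => (Real.exp_pos _).le), integral_exp_neg_Ioi]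

lemma partB (c t : ℝ) (hc : 0 < c) (ht : 0 ≤ t) (G : ℝ → ℝ) (hG : Measurable G)
    (h0 : ∀ s, 0 ≤ G s) (h1 : ∀ s, G s ≤ 1) :
    ∫⁻ e in Icc 0 (c * t), ENNReal.ofReal (Real.exp (-e)) * ENNReal.ofReal (G (t - e / c)) =
      ENNReal.ofReal (∫ s in (0 : ℝ)..t, Real.exp (-(c * (t - s))) * (c * G s)) := by
  have e1 : ∀ e, ENNReal.ofReal (Real.exp (-e)) * ENNReal.ofReal (G (t - e / c)) =
      ENNReal.ofReal (Real.exp (-e) * G (t - e / c)) := fun e =>
    (ENNReal.ofReal_mul (Real.exp_pos _).le).symm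
  have hmeas : Measurable (fun e : ℝ => Real.exp (-e) * G (t - e / c)) := by
    have : Measurable (fun e : ℝ => G (t - e / c)) := hG.comp (by fun_prop)
    exact (by fun_prop : Measurable (fun e : ℝ => Real.exp (-e))).mul this
  have hint : IntegrableOn (fun e : ℝ => Real.exp (-e) * G (t - e / c)) (Icc 0 (c * t)) := by
    refine Measure.integrableOn_of_bounded (M := 1) (by simp) hmeas.aestronglyMeasurable ?_
    refine (ae_restrict_iff' measurableSet_Icc).2 (Eventually.of_forall fun e he => ?_)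
    rw [Real.norm_eq_abs, abs_of_nonneg (mul_nonneg (Real.exp_pos _).le (h0 _))]
    have a1 : Real.exp (-e) ≤ 1 := Real.exp_le_one_iff.2 (by linarith [he.1])
    exact mul_le_one₀ a1 (h0 _) (h1 _)
  simp only [e1]
  rw [← ofReal_integral_eq_lintegral_ofReal hint
    (Eventually.of_forall fun x => mul_nonneg (Real.exp_pos _).le (h0 _))]
  congr 1
  rw [integral_Icc_eq_integral_Ioc, ← intervalIntegral.integral_of_le (by positivity)]
  have h := intervalIntegral.integral_comp_sub_mul (a := 0) (b := t)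
    (fun e => Real.exp (-e) * G (t - e / c)) hc.ne' (c * t)
  have e2 : ∀ s : ℝ, Real.exp (-(c * t - c * s)) * G (t - (c * t - c * s) / c) =
      Real.exp (-(c * (t - s))) * G s := by
    intro s
    have a : t - (c * t - c * s) / c = s := by field_simp; ring
    rw [a]
    congr 2
    ring
  simp only [e2, sub_self, mul_zero, sub_zero, smul_eq_mul] at h
  have e3 : ∀ s : ℝ, Real.exp (-(c * (t - s))) * (c * G s) =
      c * (Real.exp (-(c * (t - s))) * G s) := fun s => by ring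
  simp only [e3]
  rw [intervalIntegral.integral_const_mul, h]
  field_simp

lemma outer (hpm : PMStmt) (hpa : PAStmt) (hpb : PBStmt) (ξ : ℤ → ℝ) (hξ : ∀ x, 0 < ξ x)
    (y : ℤ) (n : ℕ) (t : ℝ) (z : ℤ) (ht : 0 ≤ t) :
    treeLaw {ω | Ev ξ y (n + 1) t z ω} = ENNReal.ofReal
      (Real.exp (-((1 + ξ z) * t)) * ind y z +
        ∫ s in (0 : ℝ)..t, Real.exp (-((1 + ξ z) * (t - s))) * ((1 + ξ z) * GG ξ y n z s)) := by
  have hc : 0 < 1 + ξ z := by have := hξ z; linarith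
  have i0 : 0 ≤ ind y z := by unfold ind; split_ifs <;> norm_num
  have h1 : {ω | Ev ξ y (n + 1) t z ω} = (fun ω : List Bool → ℝ × ℝ =>
      (ω [], (fun l => ω (l ++ [false])), (fun l => ω (l ++ [true])))) ⁻¹' SS ξ y n t z := by
    ext ω
    exact hpa ξ y n t z ω
  have i1 : IsProbabilityMeasure (expMeasure 1) := isProbabilityMeasure_expMeasure one_pos
  rw [h1, ← Measure.map_apply hpb.1 (SS_meas hpm ξ y n t z), hpb.2,
    Measure.prod_apply (SS_meas hpm ξ y n t z), markLaw,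
    lintegral_prod _ (measurable_measure_prodMk_left (SS_meas hpm ξ y n t z)).aemeasurable]
  simp only [inner hpm ξ hξ y n t z ht]
  have hm : Measurable (fun e : ℝ => ENNReal.ofReal
      (if t < e / (1 + ξ z) then ind y z else GG ξ y n z (t - e / (1 + ξ z)))) := by
    apply Measurable.ennreal_ofReal
    refine Measurable.ite (measurableSet_lt measurable_const (by fun_prop)) measurable_const ?_
    exact (GG_meas hpm ξ y n z).comp (by fun_prop)
  rw [lint_exp _ hm]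
  have e1 : Ici (0 : ℝ) = Icc 0 ((1 + ξ z) * t) ∪ Ioi ((1 + ξ z) * t) := by
    rw [Icc_union_Ioi_eq_Ici (by positivity)]
  rw [e1, lintegral_union measurableSet_Ioi (by
    rw [Set.disjoint_left]
    rintro r ⟨_, a⟩ b
    exact absurd a (not_le.2 b))]
  rw [setLIntegral_congr_fun (g := fun e => ENNReal.ofReal (Real.exp (-e)) *
      ENNReal.ofReal (GG ξ y n z (t - e / (1 + ξ z)))) measurableSet_Icc,
    setLIntegral_congr_fun (g := fun e => ENNReal.ofReal (Real.exp (-e)) *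
      ENNReal.ofReal (ind y z)) measurableSet_Ioi, partA,
    partB _ t hc ht _ (GG_meas hpm ξ y n z) (GG_nonneg ξ hξ y n z) (GG_le ξ hξ y n z),
    ← ENNReal.ofReal_mul (Real.exp_pos _).le, add_comm, ENNReal.ofReal_add]
  · positivity
  · apply intervalIntegral.integral_nonneg ht
    intro s _
    have := GG_nonneg ξ hξ y n z s
    positivity
  · intro e he
    have : t < e / (1 + ξ z) := by
      rw [lt_div_iff₀ hc]
      have : (1 + ξ z) * t < e := he
      linarith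
    simp only [this, if_true]
  · intro e he
    have : ¬ t < e / (1 + ξ z) := by
      rw [not_lt, div_le_iff₀ hc]
      linarith [he.2]
    simp only [this, if_false]

/-- (PROC) -/
theorem proc (hpm : PMStmt) (hpa : PAStmt) (hpb : PBStmt) : ProcStmt := by
  intro a b ξ hE y z n t ht
  refine ⟨meas_slice hpm ξ y n t z, ?_⟩
  have hξ : ∀ x, 0 < ξ x := fun x => lt_of_lt_of_le hE.1 (hE.2 x).1
  have key : ∀ n : ℕ, ∀ (z : ℤ) (t : ℝ), 0 ≤ t →
      pr ξ y n z t = iter ξ univ (ind y) n t z := by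
    intro n
    induction n with
    | zero =>
      intro z t _
      have : {ω : List Bool → ℝ × ℝ | Ev ξ y 0 t z ω} = ∅ := by
        ext ω
        simp [Ev]
      simp [pr, this, iter]
    | succ n ih =>
      intro z t ht
      have h := outer hpm hpa hpb ξ hξ y n t z ht
      have i0 : 0 ≤ ind y z := by unfold ind; split_ifs <;> norm_num
      have hnn : 0 ≤ Real.exp (-((1 + ξ z) * t)) * ind y z +
          ∫ s in (0 : ℝ)..t, Real.exp (-((1 + ξ z) * (t - s))) *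
            ((1 + ξ z) * GG ξ y n z s) := by
        refine add_nonneg (by positivity) (intervalIntegral.integral_nonneg ht ?_)
        intro s _
        have := GG_nonneg ξ hξ y n z s
        have := hξ z
        positivity
      rw [pr, h, ENNReal.toReal_ofReal hnn]
      simp only [iter, mem_univ, if_true]
      congr 1
      apply intervalIntegral.integral_congr
      intro s hs
      rw [uIcc_of_le ht] at hs
      simp only [cg_eq ξ hξ y n z s, ih _ s hs.1]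
  rw [law_eq, key n z t ht]

end BRW.H75
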