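import Pool.Agent.Helper8_BRW.Stmts

/-!
# Squad BRW, module STR: the strip inequality
-/

set_option autoImplicit false

open MeasureTheory Set Filter

namespace BRW.H75

lemma exp_three : Real.exp 3 * 8 ≤ 216 := by
  have h : Real.exp 1 < 3 := Real.exp_one_lt_three
  have h2 : Real.exp 3 = Real.exp 1 ^ 3 := by rw [← Real.exp_nat_mul]; norm_num
  have h3 : Real.exp 1 ^ 3 ≤ 3 ^ 3 := by gcongr
  rw [h2]
  linarith

/-- (STR) -/
theorem strip (hcru : CRUStmt) (hlow : LOWStmt) (hubd : UBDStmt) (hh3 : H3Stmt) (hf7 : F7Stmt)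
    (hexl : EXLStmt) : StripStmt := by
  intro b hb
  have hlog : (0.6931471803 : ℝ) < Real.log 2 := Real.log_two_gt_d9
  set ρ : ℝ := 20 * b + 300 with hρ
  have hρ1 : 300 ≤ ρ := by rw [hρ]; linarith
  have hρ0 : 0 < ρ := by linarith
  refine ⟨ρ, by linarith, by nlinarith, ?_⟩
  intro L hL
  obtain ⟨C, t0, hC, hLt0, h3⟩ := hh3 b (2 * ρ) L hb (by linarith) hL
  refine ⟨⌈ρ * t0 + 2 * L * ρ + 1 + 2 * C * (b + 2)⌉₊, ?_⟩
  intro K hK a ξ hE y v' v hv' hv t x ht hx h1 h2
  have hKr : ρ * t0 + 2 * L * ρ + 1 + 2 * C * (b + 2) ≤ (K : ℝ) :=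
    (Nat.le_ceil _).trans (by exact_mod_cast hK)
  have ht00 : 0 ≤ t0 := hL.trans hLt0.le
  have p1 : 0 ≤ ρ * t0 := by positivity
  have p2 : 0 ≤ 2 * L * ρ := by positivity
  have p3 : 0 ≤ 2 * C * (b + 2) := by positivity
  obtain ⟨n, hn⟩ : ∃ n : ℕ, x = y - n := ⟨(y - x).toNat, by
    rw [Int.toNat_of_nonneg (by linarith)]; ring⟩
  subst hn
  have hn1 : 1 ≤ n := by
    rcases Nat.eq_zero_or_pos n with h | h
    · subst h; simp at hx
    · exact h
  have hn1r : (1 : ℝ) ≤ n := by exact_mod_cast hn1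
  have hD : ((y + K - (y - n) : ℤ) : ℝ) = n + K := by push_cast; ring
  rw [hD] at h1 h2
  have hKt : (K : ℝ) ≤ ρ * t := by linarith
  have htt0 : t0 ≤ t := by
    have : ρ * t0 ≤ ρ * t := by linarith
    exact le_of_mul_le_mul_left this hρ0
  have ht2L : 2 * L ≤ t := by
    have : ρ * (2 * L) ≤ ρ * t := by nlinarith
    exact le_of_mul_le_mul_left this hρ0
  have hLt : L ≤ t := by linarith
  refine ⟨hLt, ?_⟩
  have hvnn : 0 ≤ v (t - L) (y - n) := hv.nonneg _ _ (by linarith)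
  rcases le_or_gt n K with hnK | hnK
  · -- case `n ≤ K`
    have hnKr : (n : ℝ) ≤ K := by exact_mod_cast hnK
    have c1 := (hcru a b ξ hE (y + K) ρ (by linarith)).2.1 v' hv' t (y - n) ht
    have c2 := (hlow a b ξ hE y).1 v hv (t - L) n (by linarith)
    have e1 : (y - (n : ℤ) - (y + (K : ℤ))) = -((n + K : ℕ) : ℤ) := by push_cast; ring
    rw [e1, zpow_neg, zpow_natCast] at c1
    have hDρ : t ≤ (n + K) / ρ := by rw [le_div_iff₀ hρ0]; linarith
    -- lower bound
    have l1 : Real.exp (-t) ≤ Real.exp (-(t - L)) := Real.exp_le_exp.2 (by linarith)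
    have l2 : t / 4 ≤ (t - L) / 2 := by linarith
    have l3 : (t / 4) ^ n ≤ ((t - L) / 2) ^ n := by
      have : 0 ≤ t / 4 := by linarith
      gcongr
    have l4 : (n.factorial : ℝ) ≤ (n : ℝ) ^ n := by exact_mod_cast Nat.factorial_le_pow n
    have l5 : (0 : ℝ) < n.factorial := by exact_mod_cast Nat.factorial_pos n
    have l6 : (0 : ℝ) < (n : ℝ) ^ n := by positivity
    have l7 : 1 / (8 * ρ) ≤ t / 4 / n := by
      rw [div_div, div_le_div_iff₀ (by positivity) (by positivity)]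
      have : (n : ℝ) ≤ 2 * (ρ * t) := by linarith
      nlinarith
    have l8 : (1 / (8 * ρ)) ^ n ≤ (t / 4) ^ n / n.factorial := by
      calc (1 / (8 * ρ)) ^ n ≤ (t / 4 / n) ^ n := by gcongr
        _ = (t / 4) ^ n / (n : ℝ) ^ n := by rw [div_pow]
        _ ≤ (t / 4) ^ n / n.factorial := by gcongr
    have low : Real.exp (-((n + K) / ρ)) * (1 / (8 * ρ)) ^ n ≤ v (t - L) (y - n) := by
      calc Real.exp (-((n + K) / ρ)) * (1 / (8 * ρ)) ^ n
          ≤ Real.exp (-(t - L)) * (((t - L) / 2) ^ n / n.factorial) := by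
            have a1 : Real.exp (-((n + K) / ρ)) ≤ Real.exp (-(t - L)) :=
              Real.exp_le_exp.2 (by linarith)
            have a2 : (1 / (8 * ρ)) ^ n ≤ ((t - L) / 2) ^ n / n.factorial :=
              l8.trans (by gcongr)
            gcongr
        _ = Real.exp (-(t - L)) * ((t - L) / 2) ^ n / n.factorial := by ring
        _ ≤ v (t - L) (y - n) := c2
    -- upper bound
    have up : v' t (y - n) ≤ Real.exp (b * ((n + K) / ρ) + (n + K) / 2) * (ρ ^ (n + K))⁻¹ := by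
      refine c1.trans ?_
      have : (b + ρ / 2) * t ≤ b * ((n + K) / ρ) + (n + K) / 2 := by
        have := mul_le_mul_of_nonneg_left hDρ hb.le
        nlinarith
      gcongr
    refine up.trans (le_trans ?_ low)
    have hbρ : (b + 1) / ρ ≤ 1 := by rw [div_le_one hρ0]; linarith
    have m1 : Real.exp ((b + 1) * ((n + K) / ρ) + (n + K) / 2) ≤ Real.exp 3 ^ K := by
      rw [← Real.exp_nat_mul]
      apply Real.exp_le_exp.2
      have : (b + 1) * ((n + K) / ρ) ≤ n + K := by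
        have h0 : (0 : ℝ) ≤ n + K := by positivity
        calc (b + 1) * ((n + K) / ρ) = (b + 1) / ρ * (n + K) := by ring
          _ ≤ 1 * (n + K) := by gcongr
          _ = n + K := one_mul _
      linarith
    have m2 : (8 : ℝ) ^ n ≤ 8 ^ K := pow_le_pow_right₀ (by norm_num) hnK
    have m3 : Real.exp 3 ^ K * 8 ^ K ≤ ρ ^ K := by
      rw [← mul_pow]
      have := exp_three
      gcongr
      linarith
    have m4 : Real.exp ((b + 1) * ((n + K) / ρ) + (n + K) / 2) * 8 ^ n ≤ ρ ^ K :=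
      (by gcongr : _ ≤ Real.exp 3 ^ K * 8 ^ K).trans m3
    have m5 : Real.exp (b * ((n + K) / ρ) + (n + K) / 2) =
        Real.exp ((b + 1) * ((n + K) / ρ) + (n + K) / 2) * Real.exp (-((n + K) / ρ)) := by
      rw [← Real.exp_add]
      congr 1
      ring
    have q1 : (0 : ℝ) < ρ ^ (n + K) := by positivity
    have q2 : (0 : ℝ) < 8 ^ n * ρ ^ n := by positivity
    have q3 : (1 / (8 * ρ)) ^ n = (8 ^ n * ρ ^ n)⁻¹ := by
      rw [one_div, inv_pow, mul_pow]
    rw [m5, q3]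
    have q4 : Real.exp ((b + 1) * ((n + K) / ρ) + (n + K) / 2) * (ρ ^ (n + K))⁻¹ ≤
        (8 ^ n * ρ ^ n)⁻¹ := by
      rw [← div_eq_mul_inv, div_le_iff₀ q1, pow_add, inv_mul_eq_div, le_div_iff₀ q2]
      calc _ = Real.exp ((b + 1) * ((n + K) / ρ) + (n + K) / 2) * 8 ^ n * ρ ^ n := by ring
        _ ≤ ρ ^ K * ρ ^ n := by gcongr
        _ = ρ ^ n * ρ ^ K := by ring
    calc _ = Real.exp (-((n + K) / ρ)) *
          (Real.exp ((b + 1) * ((n + K) / ρ) + (n + K) / 2) * (ρ ^ (n + K))⁻¹) := by ring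
      _ ≤ _ := by gcongr
  · -- case `K < n`
    have hnKr : (K : ℝ) < n := by exact_mod_cast hnK
    obtain ⟨h, hh⟩ := hexl a b ξ hE y
    have hρt1 : 1 ≤ ρ * t := by linarith
    have hn2 : (n : ℝ) ≤ 2 * ρ * t := by linarith
    have hn3 : ρ * t / 2 ≤ n := by linarith
    have u1 := hubd a b ξ hE y K v' h hv' hh t n ht hn1 (by nlinarith)
    have u2 := h3 a ξ hE y h hh t n htt0 hn1 hn2
    have u3 := hf7 a b ξ hE y v h hv hh (t - L) n (by linarith) (by
      have : (8 * b + 30) * (t - L) ≤ (8 * b + 30) * t := by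
        have : 0 ≤ 8 * b + 30 := by linarith
        gcongr
        linarith
      nlinarith)
    have k1 : (K : ℝ) ≤ 2 ^ K := by exact_mod_cast (Nat.lt_two_pow_self (n := K)).le
    have k2 : (b + 2) / 2 ^ K * (C * 2) ≤ 1 := by
      rw [div_mul_eq_mul_div, div_le_one (by positivity)]
      linarith
    calc v' t (y - n) ≤ (b + 2) / 2 ^ K * h t (y - n) := u1
      _ ≤ (b + 2) / 2 ^ K * (C * (2 * v (t - L) (y - n))) := by
        have := u2.trans (mul_le_mul_of_nonneg_left u3 hC.le)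
        gcongr
      _ = (b + 2) / 2 ^ K * (C * 2) * v (t - L) (y - n) := by ring
      _ ≤ 1 * v (t - L) (y - n) := by gcongr
      _ = v (t - L) (y - n) := one_mul _

end BRW.H75
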